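import Pool.Agent.Lib.MP_b5021c_nt.KO.H42.Bpa
import Pool.Agent.Lib.MP_b5021c_nt.KO.H42.Fc
import Pool.Agent.Lib.MP_b5021c_nt.KO.H42.Pwc
import Pool.Agent.Lib.MP_b5021c_nt.KE.H96.Two
import Pool.Agent.Lib.MP_b5021c_nt.IfaceE3V

/-!
# Board b5, PURE BETA: the analytic inputs of BE_N2 (`hc`, `nd1`, `nd2` of `pm_two`)
-/

set_option linter.unusedSectionVars false

namespace Pool.Agent.B5.KO.H86

open scoped LaurentPolynomial
open Polynomial
open Pool.Agent.B5.PowR (ma ma_zero ma_single ma_update)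
open Pool.Agent.B5.O4Q (fa fa_ne fa_zero fa_one moeb)
open Pool.Agent.B5.KE (ev_map roots_loc q_ne typa)
open Pool.Agent.B5.H52.T00 (evR_pl)
open Pool.Agent.MP_b5021c_nt (nz)

/-- A double zero at an integer point. -/
theorem dbl {v : ℤ[X]} {s : ℤ} (h0 : v.eval s = 0)
    (h1 : (derivative v).eval s = 0) :
    (X - C (s : ℂ)) ^ 2 ∣ v.map (Coef.emb : ℤ →+* ℂ) := by
  obtain ⟨w, hw⟩ : (X - C s) ∣ v := by rw [dvd_iff_isRoot]; exact h0
  have h2 : w.eval s = 0 := by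
    rw [hw, derivative_mul] at h1
    simpa using h1
  obtain ⟨u, hu⟩ : (X - C s) ∣ w := by rw [dvd_iff_isRoot]; exact h2
  refine ⟨u.map (Coef.emb : ℤ →+* ℂ), ?_⟩
  have h3 : ((C s : ℤ[X]).map (Coef.emb : ℤ →+* ℂ)) = C (s : ℂ) := by
    rw [map_C]; rfl
  rw [hw, hu, Polynomial.map_mul, Polynomial.map_mul, Polynomial.map_sub, map_X, h3]
  ring

theorem circle_of {z : ℂ} (hz : ‖z‖ = 1) : ∃ w : Circle, (w : ℂ) = z :=
  ⟨⟨z, mem_sphere_zero_iff_norm.mpr hz⟩, rfl⟩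

/-- One variable in the disc. -/
theorem lin {A B : ℂ} (h : ∀ x : ℂ, ‖x‖ < 1 → A + B * x ≠ 0) : ‖B‖ ≤ ‖A‖ := by
  by_contra hn
  push Not at hn
  have hB : B ≠ 0 := by
    rintro rfl
    rw [norm_zero] at hn
    exact absurd (norm_nonneg A) (not_le.mpr hn)
  refine h (-A / B) ?_ (by field_simp; ring)
  rw [norm_div, norm_neg, div_lt_one (norm_pos_iff.mpr hB)]
  exact hn

section

variable {P : Type} [Fintype P] [DecidableEq P] {L : Type} [AddCommGroup L] [Module.Free ℤ L]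
  [Module.Finite ℤ L] {phi : L →+ (P → ℤ)} {D : AO ℤ L} {q f : ℤ[X]} {a : ℝ} {j s : ℕ}
  {S : Fin 3 → L} {es : Fin 3 → (RO ℤ)ˣ} {T : Fin s → L} {lam : Fin s → (RO ℤ)ˣ}

/-- `m_i` for the load `B`. -/
theorem bm_B {i : Fin s} {g : ℤ[X]} {e : (RO ℤ)ˣ} (hR : RN D (T i) q g e a)
    (hl : lam i = ld e 1) : bm D (T i) (lam i) = toLaurent (q + X * g) := by
  have h1 : ((ld e 1 : (RO ℤ)ˣ) : RO ℤ) * D.coeff (T i) = toLaurent (X * g) := by
    rw [ld, Units.val_mul, mul_assoc, hR.DS, H40.uT_val, map_mul, toLaurent_X]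
    simp
  rw [bm, hl, hR.D0, map_add, h1]

/-- The zero of `q + X g` in the disc for a ray of type B. -/
theorem zero_B {i : Fin s} {g V : ℤ[X]} {e : (RO ℤ)ˣ} {b : ℝ} (hR : RN D (T i) q g e a)
    (hl : lam i = ld e 1) (hB : TB (bm D (T i) (lam i)) V a b) :
    ∃ b : ℂ, ‖b‖ < 1 ∧ (aeval b (q + X * g) : ℂ) = 0 := by
  obtain ⟨h1, -, h2, h3, t, ht, -⟩ := hB
  have hV : V = q + X * g := by
    apply toLaurent_injective
    rw [← h1, bm_B hR hl]
  refine ⟨(b : ℂ), ?_, ?_⟩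
  · rw [Complex.norm_real, Real.norm_eq_abs, abs_of_pos (hR.loc.a0.trans h2)]
    exact h3
  · rw [← hV, ← Pool.Agent.B5.Nr.Sch.aeval_map_real, ht]
    simp

/-- The face of `S_0`, `S_1`, `T_i`. -/
theorem face_i (hF : FcmS) (h : Be phi D q f a j s S es T lam) (i : Fin s) (z : Circle)
    {x y0 y1 : ℂ} (hx : ‖x‖ < 1) (hy0 : ‖y0‖ < 1) (hy1 : ‖y1‖ < 1) :
    aeval (z : ℂ) q + (evR z (bm D (T i) (lam i)) - aeval (z : ℂ) q) * x +
      z * aeval (z : ℂ) f * (1 - x) * (1 - (1 - y0) * (1 - y1)) ≠ 0 := by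
  have h1 := fa_ne hF h z (Function.update 0 i x) y0 y1 (by
    intro k
    by_cases hk : k = i
    · subst hk
      rw [Function.update_self]
      exact hx
    · rw [Function.update_of_ne hk]
      simp) hy0 hy1
  have h2 : ma (fa D T lam z) (Function.update 0 i x) = aeval (z : ℂ) q +
      (evR z (bm D (T i) (lam i)) - aeval (z : ℂ) q) * x := by
    rw [ma_update]
    have e0 : Function.update (0 : Fin s → ℂ) i 0 = 0 := Function.update_eq_self i 0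
    have e1 : Function.update (0 : Fin s → ℂ) i 1 = Pi.single i 1 := rfl
    rw [e0, e1, fa_zero, fa_one, h.ko.D0, evR_pl]
  have h3 : ∏ k, (1 - Function.update (0 : Fin s → ℂ) i x k) = 1 - x := by
    rw [Finset.prod_eq_single i]
    · rw [Function.update_self]
    · intro k _ hk
      rw [Function.update_of_ne hk]
      simp
    · simp
  rw [h2, h3] at h1
  exact h1

/-- (hc) THE FACE `{S_0, S_1, T_i}` for a load of type B. -/
theorem hc_of (hF : FcmS) (h : Be phi D q f a j s S es T lam) {i : Fin s} {g : ℤ[X]}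
    {e : (RO ℤ)ˣ} (hR : RN D (T i) q g e a) (hl : lam i = ld e 1) :
    ∀ z : ℂ, ‖z‖ = 1 → ∀ w : ℂ, ‖w‖ = 1 → 1 / 2 * ‖aeval z q + z * aeval z g‖ ^ 2 ≤
      (((aeval z q + z * aeval z f) - z * aeval z f * (1 + w) ^ 2) *
        (starRingEnd ℂ) (aeval z q + z * aeval z g)).re := by
  intro z hz w hw
  obtain ⟨c, rfl⟩ := circle_of hz
  have hm : evR c (bm D (T i) (lam i)) = aeval (c : ℂ) q + c * aeval (c : ℂ) g := by
    rw [bm_B hR hl, evR_pl, map_add, map_mul, aeval_X]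
  have key : ∀ t y0 y1 : ℂ, -(1 / 2) < t.re → ‖y0‖ < 1 → ‖y1‖ < 1 →
      (aeval (c : ℂ) q + c * aeval (c : ℂ) f) + (-(c * aeval (c : ℂ) f)) *
        ((1 - y0) * (1 - y1) - 0) + (aeval (c : ℂ) q + c * aeval (c : ℂ) g) * t ≠ 0 := by
    intro t y0 y1 ht h0 h1 hcon
    obtain ⟨x1, x2, x3⟩ := moeb ht
    apply face_i hF h i c x1 h0 h1
    rw [hm]
    have h5 : t / (1 + t) * (1 + t) = t := div_mul_cancel₀ t x2
    apply mul_right_cancel₀ x2
    rw [zero_mul]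
    linear_combination hcon + (c * aeval (c : ℂ) g -
      c * aeval (c : ℂ) f * (1 - (1 - y0) * (1 - y1))) * h5
  have h1 := O4F.face1 key hw
  have hn : ((‖(aeval (c : ℂ) q + c * aeval (c : ℂ) g : ℂ)‖ ^ 2 : ℝ) : ℂ) =
      (aeval (c : ℂ) q + c * aeval (c : ℂ) g) *
        (starRingEnd ℂ) (aeval (c : ℂ) q + c * aeval (c : ℂ) g) := by
    rw [Complex.mul_conj, Complex.normSq_eq_norm_sq]
  have h2 : (2 * (aeval (c : ℂ) q + c * aeval (c : ℂ) f) -
      (aeval (c : ℂ) q + c * aeval (c : ℂ) g) +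
        2 * (((1 + w) ^ 2 - 0) * -(c * aeval (c : ℂ) f))) *
          (starRingEnd ℂ) (aeval (c : ℂ) q + c * aeval (c : ℂ) g) =
      ((2 : ℝ) : ℂ) * (((aeval (c : ℂ) q + c * aeval (c : ℂ) f) -
        c * aeval (c : ℂ) f * (1 + w) ^ 2) *
          (starRingEnd ℂ) (aeval (c : ℂ) q + c * aeval (c : ℂ) g)) -
        ((‖(aeval (c : ℂ) q + c * aeval (c : ℂ) g : ℂ)‖ ^ 2 : ℝ) : ℂ) := by
    rw [hn]
    push_cast
    ring
  rw [h2, Complex.sub_re, Complex.re_ofReal_mul, Complex.ofReal_re] at h1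
  linarith

/-- (nd2) no double zero of `q + X g`. -/
theorem nd2_of (hNd : Nd3S) {i : Fin s} {g : ℤ[X]} {e : (RO ℤ)ˣ} (hR : RN D (T i) q g e a)
    (hb : ∃ b : ℂ, ‖b‖ < 1 ∧ (aeval b (q + X * g) : ℂ) = 0) :
    ∀ s : ℤ, s ^ 2 = 1 → (q + X * g).eval s = 0 → (derivative (q + X * g)).eval s ≠ 0 := by
  intro s hs h0 h1
  have hv : q + X * g ≠ 0 := by
    intro h0
    have h1 : (q + X * g).coeff 0 = 0 := by rw [h0, coeff_zero]
    rw [coeff_add, hR.loc.q0, coeff_X_mul_zero, add_zero] at h1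
    exact one_ne_zero h1
  have hsn : ‖((s : ℤ) : ℂ)‖ = 1 := by
    have h1 : ‖((s : ℤ) : ℂ)‖ ^ 2 = 1 := by
      have : ((s : ℤ) : ℂ) ^ 2 = 1 := by exact_mod_cast hs
      rw [← norm_pow, this, norm_one]
    nlinarith [norm_nonneg ((s : ℤ) : ℂ)]
  refine hNd (q.map (Coef.emb : ℤ →+* ℂ)) ((q + X * g).map (Coef.emb : ℤ →+* ℂ)) (s : ℂ) ?_ ?_ ?_
    ?_ ?_ hsn (dbl h0 h1)
  · unfold nz
    rw [roots_loc hR.loc, Multiset.card_singleton]
  · intro w hw
    rw [ev_map]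
    exact q_ne hR.loc w hw
  · intro z hz
    rw [ev_map, ev_map, map_add, map_mul, aeval_X, add_mul, Complex.add_re, Complex.mul_conj,
      Complex.normSq_eq_norm_sq, Complex.ofReal_re]
    have h1 := hR.loc.le z hz
    have h2 := Complex.abs_re_le_norm (z * (aeval z g : ℂ) * (starRingEnd ℂ) (aeval z q : ℂ))
    rw [norm_mul, norm_mul, hz, one_mul, Complex.norm_conj] at h2
    have h3 := (abs_le.mp h2).1
    have h4 := norm_nonneg (aeval z q : ℂ)
    nlinarith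
  · rw [Ne, Polynomial.map_eq_zero_iff emb_inj]
    exact hv
  · obtain ⟨b, hb1, hb2⟩ := hb
    exact ⟨b, hb1, by rw [ev_map]; exact hb2⟩

/-- The disc of radius `9/4` around `7/4`. -/
theorem q74 (hP : BeParS) (h : Be phi D q f a j s S es T lam) {z : ℂ} (hz : ‖z‖ = 1) :
    9 / 4 * ‖(aeval z f : ℂ)‖ ≤ ‖(aeval z q : ℂ) - 3 / 4 * z * aeval z f‖ := by
  have hs := h.s2
  have hj := h.ko.j2
  obtain ⟨i, -⟩ : ∃ i : Fin s, i = ⟨0, by omega⟩ := ⟨_, rfl⟩
  have hfin := hP P L phi D q f a j s S es T lam h {i} (Finset.singleton_nonempty i) (by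
    intro k hk l hl hkl
    rw [Finset.mem_singleton] at hk hl
    exact absurd (hk.trans hl.symm) hkl)
  have hc1 : Continuous fun z : ℂ => 9 / 4 * ‖(aeval z f : ℂ)‖ :=
    continuous_const.mul (Polynomial.differentiable_aeval f).continuous.norm
  have hc2 : Continuous fun z : ℂ => ‖(aeval z q : ℂ) - 3 / 4 * z * aeval z f‖ := by
    have g1 := (Polynomial.differentiable_aeval (𝕜 := ℂ) f).continuous
    have g2 := (Polynomial.differentiable_aeval (𝕜 := ℂ) q).continuous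
    exact (g2.sub ((continuous_const.mul continuous_id).mul g1)).norm
  refine O4P.circle_le hc1.continuousOn hc2.continuousOn
    (hfin.image (fun w : Circle => (w : ℂ))).countable ?_ hz
  intro z hz hn
  obtain ⟨c, rfl⟩ := circle_of hz
  have h1 : ∀ (rho : ℂ) (t : Fin s → ℂ), ‖rho - 7 / 4‖ < 9 / 4 →
        (∀ i, -(1 / 2) < (t i).re) → (aeval (c : ℂ) q : ℂ) + c * aeval (c : ℂ) f * (1 - rho) +
          ∑ i ∈ ({i} : Finset (Fin s)), evR c (bm D (T i) (lam i)) * t i ≠ 0 := by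
    by_contra hcon
    exact hn ⟨c, hcon, rfl⟩
  by_contra hlt
  push Not at hlt
  have hf0 : (aeval (c : ℂ) f : ℂ) ≠ 0 := by
    intro h0
    rw [h0, norm_zero, mul_zero, mul_zero, sub_zero] at hlt
    exact absurd (norm_nonneg (aeval (c : ℂ) q : ℂ)) (not_le.mpr hlt)
  have hc0 : (c : ℂ) ≠ 0 := Circle.coe_ne_zero c
  have h2 := h1 (7 / 4 + ((aeval (c : ℂ) q : ℂ) - 3 / 4 * c * aeval (c : ℂ) f) /
    (c * aeval (c : ℂ) f)) (fun _ => 0) (by
      rw [add_sub_cancel_left, norm_div, norm_mul, Circle.norm_coe, one_mul,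
        div_lt_iff₀ (norm_pos_iff.mpr hf0)]
      exact hlt) (by intro k; norm_num)
  apply h2
  rw [Finset.sum_singleton, mul_zero, add_zero]
  field_simp
  ring

/-- `E_0` has no zero in the closed disc. -/
theorem E0_ne (hP : BeParS) (h : Be phi D q f a j s S es T lam) {E0 : ℤ[X]}
    (hE : f - q = X * E0) : ∀ z : ℂ, ‖z‖ ≤ 1 → (aeval z E0 : ℂ) ≠ 0 := by
  obtain ⟨E', hE', -, -, hz'⟩ := typa (h.nS 0).loc h.f0 (h.nS 0).ne
  have he : E0 = E' := by
    have h3 : (X : ℤ[X]) * E0 = X * E' := by rw [← hE, ← hE']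
    exact mul_left_cancel₀ X_ne_zero h3
  intro z hz h0
  rcases lt_or_eq_of_le hz with h1 | h1
  · rw [he] at h0
    exact hz' z h1 h0
  · have hfq : (aeval z f : ℂ) = aeval z q := by
      have h3 := congrArg (fun p : ℤ[X] => (aeval z p : ℂ)) hE
      simp only [map_sub, map_mul, aeval_X, h0, mul_zero] at h3
      exact sub_eq_zero.mp h3
    have h2 := q74 hP h h1
    rw [hfq] at h2
    have h3 : 0 < ‖(aeval z q : ℂ)‖ := norm_pos_iff.mpr (q_ne (h.nS 0).loc z h1)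
    have h4 : ‖(aeval z q : ℂ) - 3 / 4 * z * aeval z q‖ ≤ 7 / 4 * ‖(aeval z q : ℂ)‖ := by
      calc ‖(aeval z q : ℂ) - 3 / 4 * z * aeval z q‖ ≤ ‖(aeval z q : ℂ)‖ +
            ‖3 / 4 * z * (aeval z q : ℂ)‖ := norm_sub_le _ _
        _ = 7 / 4 * ‖(aeval z q : ℂ)‖ := by
          rw [norm_mul, norm_mul, h1]
          norm_num
          ring
    linarith

/-- The closing A of `S_0`: `|f + z g| ≤ |E_0|` on the circle. -/
theorem fg_le (hF : FcmS) (h : Be phi D q f a j s S es T lam) {i : Fin s} {g : ℤ[X]}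
    {e : (RO ℤ)ˣ} (hR : RN D (T i) q g e a) (hl : lam i = ld e 1) {E0 : ℤ[X]}
    (hE : f - q = X * E0) {z : ℂ} (hz : ‖z‖ = 1) :
    ‖(aeval z f : ℂ) + z * aeval z g‖ ≤ ‖(aeval z E0 : ℂ)‖ := by
  obtain ⟨c, rfl⟩ := circle_of hz
  have hm : evR c (bm D (T i) (lam i)) = aeval (c : ℂ) q + c * aeval (c : ℂ) g := by
    rw [bm_B hR hl, evR_pl, map_add, map_mul, aeval_X]
  have hc0 : (c : ℂ) ≠ 0 := Circle.coe_ne_zero c
  have key : ∀ y : ℂ, ‖y‖ < 1 → ‖c * (aeval (c : ℂ) g : ℂ) - c * aeval (c : ℂ) f * y‖ ≤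
      ‖(aeval (c : ℂ) q : ℂ) + c * aeval (c : ℂ) f * y‖ := by
    intro y hy
    apply lin
    intro x hx hcon
    apply face_i hF h i c hx hy (y1 := 0) (by simp)
    rw [hm]
    linear_combination hcon
  have hcont : Continuous fun r : ℝ =>
      ‖(aeval (c : ℂ) q : ℂ) + c * aeval (c : ℂ) f * (-(r : ℂ) * (c : ℂ)⁻¹)‖ -
        ‖c * (aeval (c : ℂ) g : ℂ) - c * aeval (c : ℂ) f * (-(r : ℂ) * (c : ℂ)⁻¹)‖ := by
    fun_prop
  have hlim := (hcont.tendsto 1).mono_left (nhdsWithin_le_nhds (s := Set.Iio 1))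
  have hge := ge_of_tendsto hlim (b := 0) (by
    have : Set.Ioo (-1 : ℝ) 1 ∈ nhdsWithin (1 : ℝ) (Set.Iio 1) := Ioo_mem_nhdsLT (by norm_num)
    filter_upwards [this] with r hr
    have h1 : ‖-(r : ℂ) * (c : ℂ)⁻¹‖ < 1 := by
      rw [norm_mul, norm_neg, norm_inv, Circle.norm_coe, inv_one, mul_one, Complex.norm_real]
      exact abs_lt.mpr ⟨hr.1, hr.2⟩
    have h2 := key _ h1
    linarith)
  have h1 : (aeval (c : ℂ) q : ℂ) + c * aeval (c : ℂ) f * (-((1 : ℝ) : ℂ) * (c : ℂ)⁻¹) =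
      -(c * aeval (c : ℂ) E0) := by
    have h3 := congrArg (fun p : ℤ[X] => (aeval (c : ℂ) p : ℂ)) hE
    simp only [map_sub, map_mul, aeval_X] at h3
    rw [← h3, Complex.ofReal_one]
    field_simp
    ring
  have h2 : c * (aeval (c : ℂ) g : ℂ) - c * aeval (c : ℂ) f * (-((1 : ℝ) : ℂ) * (c : ℂ)⁻¹) =
      aeval (c : ℂ) f + c * aeval (c : ℂ) g := by
    rw [Complex.ofReal_one]
    field_simp
    ring
  rw [h1, h2, norm_neg, norm_mul, Circle.norm_coe, one_mul] at hge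
  linarith

/-- (nd1) no double zero of `E_0 - f - X g`. -/
theorem nd1_of (hF : FcmS) (hP : BeParS) (hNd : Nd3vS) (h : Be phi D q f a j s S es T lam)
    {i : Fin s} {g : ℤ[X]} {e : (RO ℤ)ˣ} (hR : RN D (T i) q g e a) (hl : lam i = ld e 1)
    {E0 : ℤ[X]} (hE : f - q = X * E0) :
    ∀ s : ℤ, s ^ 2 = 1 → (E0 - f - X * g).eval s = 0 →
      (derivative (E0 - f - X * g)).eval s ≠ 0 := by
  intro s hs h0 h1
  have hE0 : E0.coeff 0 = j + 1 := by
    have h2 := congrArg (fun p : ℤ[X] => p.coeff 1) hE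
    simp only [coeff_sub, coeff_X_mul] at h2
    rw [← h2, h.n]
  have hv : E0 - f - X * g ≠ 0 := by
    intro h0
    have h1 : (E0 - f - X * g).coeff 0 = 0 := by rw [h0, coeff_zero]
    rw [coeff_sub, coeff_sub, hE0, h.f0, coeff_X_mul_zero, sub_zero] at h1
    have := h.ko.j2
    omega
  have hsn : ‖((s : ℤ) : ℂ)‖ = 1 := by
    have h1 : ‖((s : ℤ) : ℂ)‖ ^ 2 = 1 := by
      have : ((s : ℤ) : ℂ) ^ 2 = 1 := by exact_mod_cast hs
      rw [← norm_pow, this, norm_one]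
    nlinarith [norm_nonneg ((s : ℤ) : ℂ)]
  refine hNd (E0.map (Coef.emb : ℤ →+* ℂ)) ((E0 - f - X * g).map (Coef.emb : ℤ →+* ℂ)) (s : ℂ) ?_
    ?_ ?_ hsn (dbl h0 h1)
  · intro w hw
    rw [ev_map]
    exact E0_ne hP h hE w hw
  · intro z hz
    have h3 : (E0 - f - X * g : ℤ[X]) = E0 - (f + X * g) := by ring
    rw [ev_map, ev_map, h3, map_sub, sub_mul, Complex.sub_re, Complex.mul_conj,
      Complex.normSq_eq_norm_sq, Complex.ofReal_re, map_add, map_mul, aeval_X]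
    have h1 := fg_le hF h hR hl hE hz
    have h2 := Complex.re_le_norm (((aeval z f : ℂ) + z * (aeval z g : ℂ)) *
      (starRingEnd ℂ) (aeval z E0 : ℂ))
    rw [norm_mul, Complex.norm_conj] at h2
    have h4 := norm_nonneg (aeval z E0 : ℂ)
    nlinarith
  · rw [Ne, Polynomial.map_eq_zero_iff emb_inj]
    exact hv

/-- `q(±1) ≠ 0`. -/
theorem q_pm (h : Be phi D q f a j s S es T lam) : ∀ s : ℤ, s ^ 2 = 1 → q.eval s ≠ 0 := by
  intro s hs h0
  have hsn : ‖((s : ℤ) : ℂ)‖ = 1 := by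
    have h1 : ‖((s : ℤ) : ℂ)‖ ^ 2 = 1 := by
      have : ((s : ℤ) : ℂ) ^ 2 = 1 := by exact_mod_cast hs
      rw [← norm_pow, this, norm_one]
    nlinarith [norm_nonneg ((s : ℤ) : ℂ)]
  apply q_ne (h.nS 0).loc _ hsn
  have h1 : ((s : ℤ) : ℂ) = algebraMap ℤ ℂ s := by simp
  rw [h1, aeval_algebraMap_apply, coe_aeval_eq_eval, h0, map_zero]

end

end Pool.Agent.B5.KO.H86
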